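import Mathlib
import Pool.Agent.V11117.PathMix3

/-!
# MP_261efc_co: no averaged mixing matrix of the path P_n has rank one when n+1 is divisible by
15 or 21, or when n+1 is divisible by 6 and n+1 >= 12
-/

namespace Pool.Agent.Results.MP_261efc_co.NoRankOne

open Matrix Finset Pool.Agent.V11117.PathMix MeasureTheory

/-- Adjacency matrix of the path with `n` vertices. -/
def pathAdj (n : ℕ) : Matrix (Fin n) (Fin n) ℂ :=
  Matrix.of fun a b => if a.1 + 1 = b.1 ∨ b.1 + 1 = a.1 then 1 else 0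

/-- The transition matrix `exp(itA)` of the quantum walk on the path. -/
noncomputable def walk (n : ℕ) (t : ℝ) : Matrix (Fin n) (Fin n) ℂ :=
  NormedSpace.exp (((t : ℂ) * Complex.I) • pathAdj n)

/-- Mixing matrix. -/
noncomputable def mixing (n : ℕ) (t : ℝ) : Matrix (Fin n) (Fin n) ℝ :=
  Matrix.of fun a b => ‖walk n t a b‖ ^ 2

/-- `f` is the density of a real random variable (the second condition forces `f` to be Lebesgue
integrable, as the Bochner integral of a non-integrable function is `0` in Mathlib). -/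
structure IsDensity (f : ℝ → ℝ) : Prop where
  nonneg : ∀ s, 0 ≤ f s
  int_eq : ∫ s, f s = 1

/-- The averaged mixing matrix with respect to the density `f`. -/
noncomputable def averaged (n : ℕ) (f : ℝ → ℝ) : Matrix (Fin n) (Fin n) ℝ :=
  Matrix.of fun a b => ∫ s, f s * mixing n s a b

theorem walk_eq (n : ℕ) (t : ℝ) : walk n t = U n t := rfl

theorem IsDensity.integrable {f : ℝ → ℝ} (hf : IsDensity f) : Integrable f := by
  by_contra h
  have h1 := integral_undef h
  rw [hf.int_eq] at h1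
  exact one_ne_zero h1

theorem mix_cont (n : ℕ) (a b : Fin n) : Continuous (fun t => mixing n t a b) := by
  have h : (fun t => mixing n t a b) = fun t => ∑ r ∈ range n, ∑ s ∈ range n,
      (2 / ((n + 1 : ℕ) : ℝ)) ^ 2 * (S n (r + 1) (a.1 + 1) * S n (s + 1) (a.1 + 1)) *
        (S n (r + 1) (b.1 + 1) * S n (s + 1) (b.1 + 1)) *
        Real.cos (t * (θ n (r + 1) - θ n (s + 1))) := by
    funext t
    exact U_normsq n t a b
  rw [h]
  fun_prop

theorem mix_nonneg (n : ℕ) (t : ℝ) (a b : Fin n) : 0 ≤ mixing n t a b := by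
  simp only [mixing, Matrix.of_apply]
  positivity

theorem mix_row (n : ℕ) (t : ℝ) (a : Fin n) : ∑ b, mixing n t a b = 1 := row_sum n t a

theorem mix_le (n : ℕ) (t : ℝ) (a b : Fin n) : mixing n t a b ≤ 1 := by
  rw [← mix_row n t a]
  exact Finset.single_le_sum (f := fun b => mixing n t a b) (fun i _ => mix_nonneg n t a i)
    (Finset.mem_univ b)

theorem mix_symm (n : ℕ) (t : ℝ) (a b : Fin n) : mixing n t a b = mixing n t b a := by
  have h1 : mixing n t a b = ‖U n t a b‖ ^ 2 := rfl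
  have h2 : mixing n t b a = ‖U n t b a‖ ^ 2 := rfl
  rw [h1, h2, U_normsq, U_normsq]
  refine Finset.sum_congr rfl fun r _ => Finset.sum_congr rfl fun s _ => ?_
  ring

theorem integ {f : ℝ → ℝ} (hf : IsDensity f) (n : ℕ) (a b : Fin n) :
    Integrable (fun s => f s * mixing n s a b) := by
  refine hf.integrable.mono (hf.integrable.1.mul (mix_cont n a b).aestronglyMeasurable)
    (Filter.Eventually.of_forall fun s => ?_)
  rw [norm_mul]
  have h1 : ‖mixing n s a b‖ ≤ 1 := by
    rw [Real.norm_eq_abs, abs_of_nonneg (mix_nonneg n s a b)]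
    exact mix_le n s a b
  calc ‖f s‖ * ‖mixing n s a b‖ ≤ ‖f s‖ * 1 := mul_le_mul_of_nonneg_left h1 (norm_nonneg _)
    _ = ‖f s‖ := mul_one _

theorem avg_row {f : ℝ → ℝ} (hf : IsDensity f) (n : ℕ) (a : Fin n) :
    ∑ b, averaged n f a b = 1 := by
  simp only [averaged, Matrix.of_apply]
  rw [← integral_finset_sum _ (fun b _ => integ hf n a b)]
  have h : ∀ s, ∑ b, f s * mixing n s a b = f s := by
    intro s
    rw [← Finset.mul_sum, mix_row, mul_one]
  simp_rw [h]
  exact hf.int_eq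

theorem avg_symm (f : ℝ → ℝ) (n : ℕ) (a b : Fin n) : averaged n f a b = averaged n f b a := by
  simp only [averaged, Matrix.of_apply]
  congr 1
  funext s
  rw [mix_symm]

theorem avg_lin {f : ℝ → ℝ} (hf : IsDensity f) (n : ℕ) (u v : Fin n → ℝ) :
    ∑ a, ∑ b, u a * v b * averaged n f a b =
      ∫ s, f s * ∑ a, ∑ b, u a * v b * mixing n s a b := by
  have h1 : ∀ s, f s * ∑ a, ∑ b, u a * v b * mixing n s a b =
      ∑ a, ∑ b, u a * v b * (f s * mixing n s a b) := by
    intro s
    rw [Finset.mul_sum]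
    refine Finset.sum_congr rfl fun a _ => ?_
    rw [Finset.mul_sum]
    refine Finset.sum_congr rfl fun b _ => ?_
    ring
  simp_rw [h1]
  rw [integral_finset_sum _ (fun a _ => integrable_finset_sum _
    (fun b _ => (integ hf n a b).const_mul (u a * v b)))]
  refine Finset.sum_congr rfl fun a _ => ?_
  rw [integral_finset_sum _ (fun b _ => (integ hf n a b).const_mul (u a * v b))]
  refine Finset.sum_congr rfl fun b _ => ?_
  rw [integral_const_mul]
  rfl

theorem key {f : ℝ → ℝ} (hf : IsDensity f) (n p q : ℕ) (hq : 1 ≤ q) (hpq : q < p)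
    (hN : p + q < n + 1) (hM : ∀ a b, averaged n f a b = 1 / (n : ℝ)) :
    ∫ s, f s * Real.cos (s * (θ n p - θ n q)) =
      -(1 / (n : ℝ) * ((1 + Real.cos (Real.pi * (((p : ℤ) - q : ℤ) : ℝ))) / 2 *
        ((1 + Real.cos (Real.pi * (((p : ℤ) + q : ℤ) : ℝ))) / 2))) := by
  have h1 := avg_lin hf n (fun a => C n ((p : ℤ) - q) (a.1 + 1))
    (fun b => C n ((p : ℤ) + q) (b.1 + 1))
  have h2 : ∀ s, ∑ a : Fin n, ∑ b : Fin n, C n ((p : ℤ) - q) (a.1 + 1) *
      C n ((p : ℤ) + q) (b.1 + 1) * mixing n s a b = - Real.cos (s * (θ n p - θ n q)) :=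
    fun s => star n p q hq hpq hN s
  simp_rw [h2, hM] at h1
  have h3 : ∑ a : Fin n, ∑ b : Fin n, C n ((p : ℤ) - q) (a.1 + 1) *
      C n ((p : ℤ) + q) (b.1 + 1) * (1 / (n : ℝ)) =
      (∑ a : Fin n, C n ((p : ℤ) - q) (a.1 + 1)) * (∑ b : Fin n, C n ((p : ℤ) + q) (b.1 + 1)) *
        (1 / (n : ℝ)) := by
    rw [Finset.sum_mul_sum, Finset.sum_mul]
    refine Finset.sum_congr rfl fun a _ => ?_
    rw [Finset.sum_mul]
  rw [h3, sumC n _ (by omega) (by omega), sumC n _ (by omega) (by omega)] at h1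
  simp only [mul_neg] at h1
  rw [integral_neg] at h1
  linarith

theorem contra {f : ℝ → ℝ} (hf : IsDensity f) (n p q p' q' : ℕ) (hn : 1 ≤ n) (hq : 1 ≤ q)
    (hpq : q < p) (hN : p + q < n + 1) (hq' : 1 ≤ q') (hpq' : q' < p') (hN' : p' + q' < n + 1)
    (he : ∃ j, p = q + 2 * j) (ho : ∃ j, p' = q' + (2 * j + 1))
    (hθ : θ n p - θ n q = θ n p' - θ n q')
    (hM : ∀ a b, averaged n f a b = 1 / (n : ℝ)) : False := by
  have h1 := key hf n p q hq hpq hN hM
  have h2 := key hf n p' q' hq' hpq' hN' hM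
  rw [hθ, h2] at h1
  obtain ⟨j, hj⟩ := he
  obtain ⟨j', hj'⟩ := ho
  have c1 : Real.cos (Real.pi * (((p : ℤ) - q : ℤ) : ℝ)) = 1 := by
    have : Real.pi * (((p : ℤ) - q : ℤ) : ℝ) = ((j : ℤ) : ℝ) * (2 * Real.pi) := by
      rw [hj]
      push_cast
      ring
    rw [this]
    exact Real.cos_int_mul_two_pi _
  have c2 : Real.cos (Real.pi * (((p : ℤ) + q : ℤ) : ℝ)) = 1 := by
    have : Real.pi * (((p : ℤ) + q : ℤ) : ℝ) = ((j + q : ℤ) : ℝ) * (2 * Real.pi) := by
      rw [hj]
      push_cast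
      ring
    rw [this]
    exact Real.cos_int_mul_two_pi _
  have c3 : Real.cos (Real.pi * (((p' : ℤ) - q' : ℤ) : ℝ)) = -1 := by
    have : Real.pi * (((p' : ℤ) - q' : ℤ) : ℝ) = Real.pi + ((j' : ℤ) : ℝ) * (2 * Real.pi) := by
      rw [hj']
      push_cast
      ring
    rw [this, Real.cos_add_int_mul_two_pi, Real.cos_pi]
  rw [c1, c2, c3] at h1
  have hn' : (0 : ℝ) < n := by exact_mod_cast hn
  have : (0 : ℝ) < 1 / n := by positivity
  nlinarith

theorem notconst {f : ℝ → ℝ} (hf : IsDensity f) (n : ℕ)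
    (hn : (6 ∣ n + 1 ∧ 11 ≤ n) ∨ 15 ∣ n + 1 ∨ 21 ∣ n + 1)
    (hM : ∀ a b, averaged n f a b = 1 / (n : ℝ)) : False := by
  have hpi := Real.pi_ne_zero
  -- reduce to three cases
  have hcase : (∃ M, n + 1 = 6 * M ∧ 2 ≤ M) ∨ (∃ j, n + 1 = 15 * (2 * j + 1)) ∨
      (∃ j, n + 1 = 21 * (2 * j + 1)) := by
    rcases hn with ⟨⟨M, hM⟩, h⟩ | ⟨M, hM⟩ | ⟨M, hM⟩
    · exact Or.inl ⟨M, hM, by omega⟩
    · rcases Nat.even_or_odd' M with ⟨j, hj | hj⟩
      · exact Or.inl ⟨5 * j, by omega, by omega⟩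
      · exact Or.inr (Or.inl ⟨j, by omega⟩)
    · rcases Nat.even_or_odd' M with ⟨j, hj | hj⟩
      · exact Or.inl ⟨7 * j, by omega, by omega⟩
      · exact Or.inr (Or.inr ⟨j, by omega⟩)
  rcases hcase with ⟨M, hNM, hM2⟩ | ⟨j, hNM⟩ | ⟨j, hNM⟩
  · refine contra hf n (M + 1) (M - 1) (3 * M) (3 * M - 1) (by omega) (by omega) (by omega)
      (by omega) (by omega) (by omega) (by omega) ⟨1, by omega⟩ ⟨0, by omega⟩ ?_ hM
    unfold θ
    rw [hNM, Nat.cast_sub (by omega), Nat.cast_sub (by omega)]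
    have hM0 : (M : ℝ) ≠ 0 := by
      have : M ≠ 0 := by omega
      exact_mod_cast this
    set x : ℝ := Real.pi / ((6 * M : ℕ) : ℝ) with hx
    have hMx : (M : ℝ) * x = Real.pi / 6 := by
      rw [hx]
      push_cast
      field_simp
    have e1 : ((M + 1 : ℕ) : ℝ) * x = Real.pi / 6 + x := by push_cast; linarith
    have e2 : ((M : ℝ) - ((1 : ℕ) : ℝ)) * x = Real.pi / 6 - x := by push_cast; linarith
    have e3 : ((3 * M : ℕ) : ℝ) * x = Real.pi / 2 := by push_cast; linarith
    have e4 : (((3 * M : ℕ) : ℝ) - ((1 : ℕ) : ℝ)) * x = Real.pi / 2 - x := by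
      push_cast; linarith
    rw [e1, e2, e3, e4, Real.cos_add, Real.cos_sub, Real.cos_pi_div_two_sub, Real.cos_pi_div_two,
      Real.cos_pi_div_six, Real.sin_pi_div_six]
    ring
  · refine contra hf n (5 * (2 * j + 1)) (3 * (2 * j + 1)) (4 * (2 * j + 1)) (2 * j + 1)
      (by omega) (by omega) (by omega)
      (by omega) (by omega) (by omega) (by omega) ⟨2 * j + 1, by omega⟩
      ⟨3 * j + 1, by omega⟩ ?_ hM
    unfold θ
    rw [hNM]
    set M : ℝ := 2 * (j : ℝ) + 1 with hMdef
    have hM0 : M ≠ 0 := by positivity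
    have e0 : ((15 * (2 * j + 1) : ℕ) : ℝ) = 15 * M := by push_cast; ring
    have e1 : ((5 * (2 * j + 1) : ℕ) : ℝ) * (Real.pi / (15 * M)) = Real.pi / 3 := by
      have : ((5 * (2 * j + 1) : ℕ) : ℝ) = 5 * M := by push_cast; ring
      rw [this]
      field_simp
      norm_num
    have e2 : ((3 * (2 * j + 1) : ℕ) : ℝ) * (Real.pi / (15 * M)) = Real.pi / 5 := by
      have : ((3 * (2 * j + 1) : ℕ) : ℝ) = 3 * M := by push_cast; ring
      rw [this]
      field_simp
      norm_num
    have e3 : ((4 * (2 * j + 1) : ℕ) : ℝ) * (Real.pi / (15 * M)) = Real.pi / 6 + Real.pi / 10 := by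
      have : ((4 * (2 * j + 1) : ℕ) : ℝ) = 4 * M := by push_cast; ring
      rw [this]
      field_simp
      norm_num
    have e4 : ((2 * j + 1 : ℕ) : ℝ) * (Real.pi / (15 * M)) = Real.pi / 6 - Real.pi / 10 := by
      have : ((2 * j + 1 : ℕ) : ℝ) = M := by push_cast; ring
      rw [this]
      field_simp
      norm_num
    rw [e0, e1, e2, e3, e4, Real.cos_add, Real.cos_sub, Real.sin_pi_div_six, Real.cos_pi_div_three]
    have h5 : Real.sin (Real.pi / 10) = 2 * Real.cos (Real.pi / 5) ^ 2 - 1 := by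
      rw [← Real.cos_two_mul, ← Real.cos_pi_div_two_sub]
      congr 1
      ring
    rw [h5, Real.cos_pi_div_five]
    have h6 : Real.sqrt 5 ^ 2 = 5 := Real.sq_sqrt (by norm_num)
    nlinarith
  · refine contra hf n (7 * (2 * j + 1)) (3 * (2 * j + 1)) (9 * (2 * j + 1)) (6 * (2 * j + 1))
      (by omega) (by omega) (by omega)
      (by omega) (by omega) (by omega) (by omega) ⟨2 * (2 * j + 1), by omega⟩
      ⟨3 * j + 1, by omega⟩ ?_ hM
    unfold θ
    rw [hNM]
    set M : ℝ := 2 * (j : ℝ) + 1 with hMdef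
    have hM0 : M ≠ 0 := by positivity
    have e0 : ((21 * (2 * j + 1) : ℕ) : ℝ) = 21 * M := by push_cast; ring
    set y : ℝ := Real.pi / 7 with hy
    have e1 : ((7 * (2 * j + 1) : ℕ) : ℝ) * (Real.pi / (21 * M)) = Real.pi / 3 := by
      have : ((7 * (2 * j + 1) : ℕ) : ℝ) = 7 * M := by push_cast; ring
      rw [this]
      field_simp
      norm_num
    have e2 : ((3 * (2 * j + 1) : ℕ) : ℝ) * (Real.pi / (21 * M)) = y := by
      have : ((3 * (2 * j + 1) : ℕ) : ℝ) = 3 * M := by push_cast; ring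
      rw [this, hy]
      field_simp
      norm_num
    have e3 : ((9 * (2 * j + 1) : ℕ) : ℝ) * (Real.pi / (21 * M)) = 3 * y := by
      have : ((9 * (2 * j + 1) : ℕ) : ℝ) = 9 * M := by push_cast; ring
      rw [this, hy]
      field_simp
      norm_num
    have e4 : ((6 * (2 * j + 1) : ℕ) : ℝ) * (Real.pi / (21 * M)) = 2 * y := by
      have : ((6 * (2 * j + 1) : ℕ) : ℝ) = 6 * M := by push_cast; ring
      rw [this, hy]
      field_simp
      norm_num
    rw [e0, e1, e2, e3, e4, Real.cos_pi_div_three]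
    have hs : Real.sin y ≠ 0 := by
      apply ne_of_gt
      apply Real.sin_pos_of_pos_of_lt_pi
      · rw [hy]; positivity
      · rw [hy]
        have := Real.pi_pos
        linarith
    -- sin 4y = sin 3y
    have h43 : Real.sin (4 * y) = Real.sin (3 * y) := by
      rw [← Real.sin_pi_sub]
      congr 1
      rw [hy]
      ring
    have h4 : Real.sin (4 * y) = Real.sin (3 * y) * Real.cos y + Real.cos (3 * y) * Real.sin y := by
      rw [← Real.sin_add]
      congr 1
      ring
    have h2' : Real.sin (2 * y) = Real.sin (3 * y) * Real.cos y - Real.cos (3 * y) * Real.sin y := by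
      rw [← Real.sin_sub]
      congr 1
      ring
    have h3' : Real.sin (3 * y) = Real.sin (2 * y) * Real.cos y + Real.cos (2 * y) * Real.sin y := by
      rw [← Real.sin_add]
      congr 1
      ring
    have h1' : Real.sin y = Real.sin (2 * y) * Real.cos y - Real.cos (2 * y) * Real.sin y := by
      rw [← Real.sin_sub]
      congr 1
      ring
    have h22 : Real.sin (2 * y) = 2 * Real.sin y * Real.cos y := Real.sin_two_mul y
    have hfin : Real.sin y * (2 * (1 / 2) - 2 * Real.cos y - (2 * Real.cos (3 * y) -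
        2 * Real.cos (2 * y))) = 0 := by
      have t1 : 2 * (Real.cos (3 * y) * Real.sin y) = Real.sin (3 * y) - Real.sin (2 * y) := by
        linarith
      have t2 : 2 * (Real.cos (2 * y) * Real.sin y) = Real.sin (3 * y) - Real.sin y := by
        linarith
      linarith
    rcases mul_eq_zero.1 hfin with h | h
    · exact absurd h hs
    · linarith

/-- a matrix of rank at most one has vanishing 2x2 minors -/
theorem minors {n : ℕ} (A : Matrix (Fin n) (Fin n) ℝ) (h : A.rank ≤ 1) (a b c d : Fin n) :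
    A a b * A c d = A a d * A c b := by
  rw [Matrix.rank, finrank_le_one_iff] at h
  obtain ⟨v, hv⟩ := h
  have hcol : ∀ b, ∃ k : ℝ, ∀ a, A a b = k * v.1 a := by
    intro b
    obtain ⟨k, hk⟩ := hv ⟨A.mulVecLin (Pi.single b 1), LinearMap.mem_range_self _ _⟩
    refine ⟨k, fun a => ?_⟩
    have h1 := congrArg (fun w => w.1 a) hk
    simp only [Submodule.coe_smul, Pi.smul_apply, smul_eq_mul, Matrix.mulVecLin_apply,
      Matrix.mulVec_single_one] at h1
    rw [h1]
    rfl
  obtain ⟨k, hk⟩ := hcol b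
  obtain ⟨l, hl⟩ := hcol d
  rw [hk a, hk c, hl a, hl c]
  ring

/-- If `n + 1` is divisible by `6` and `n ≥ 11`, or divisible by `15`, or divisible by `21`, then
for every density the averaged mixing matrix of the path with `n` vertices has rank at least 2. -/
theorem result (n : ℕ) (hn : (6 ∣ n + 1 ∧ 11 ≤ n) ∨ 15 ∣ n + 1 ∨ 21 ∣ n + 1)
    (f : ℝ → ℝ) (hf : IsDensity f) : 2 ≤ (averaged n f).rank := by
  by_contra hcon
  have hr : (averaged n f).rank ≤ 1 := by omega
  have hmin := minors _ hr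
  have hn0 : (0 : ℝ) < n := by
    have : 0 < n := by
      rcases hn with ⟨_, h⟩ | ⟨M, h⟩ | ⟨M, h⟩ <;> omega
    exact_mod_cast this
  have h1 : ∀ a c d, averaged n f c d = averaged n f a d := by
    intro a c d
    have h2 : ∑ b, averaged n f a b * averaged n f c d =
        ∑ b, averaged n f a d * averaged n f c b :=
      Finset.sum_congr rfl fun b _ => hmin a b c d
    rw [← Finset.sum_mul, ← Finset.mul_sum, avg_row hf, avg_row hf, one_mul, mul_one] at h2
    exact h2
  have h3 : ∀ a b c d, averaged n f a b = averaged n f c d := by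
    intro a b c d
    rw [h1 d a b, avg_symm f n d b, h1 c b d]
  apply notconst hf n hn
  intro a b
  have h4 := avg_row hf n a
  have h5 : ∑ b', averaged n f a b' = ∑ _b' : Fin n, averaged n f a b :=
    Finset.sum_congr rfl fun b' _ => h3 a b' a b
  rw [h5, Finset.sum_const, Finset.card_univ, Fintype.card_fin, nsmul_eq_mul] at h4
  rw [eq_div_iff hn0.ne']
  linarith

end Pool.Agent.Results.MP_261efc_co.NoRankOne
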